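import Pool.Agent.L0h86.JR.Stm
import Pool.Agent.L0h2.P.FEWJ

/-!
# Project JR (helper86): few sets have few large primes in a class compared with the number of the
small primes
-/

set_option autoImplicit false

open scoped Classical

namespace Pool.Agent.L0h86.JR

open Finset
open Pool.Agent.Y703.CX (sm la zz)
open Pool.Agent.N973.ND (SA)

theorem t_FEWR : S_FEWR := by
  intro q c M V hc hcq ε hε
  have hb : ∀ y : ℕ, 3 ≤ y → ∑ p ∈ Pool.Agent.L0h2.P.PT (fun _ => False) y, (1 : ℝ) / p -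
      ∑ p ∈ Pool.Agent.L0h2.P.PT (fun _ => False) y, (1 : ℝ) / p ≤ (0 : ℝ) := by
    intro y _
    rw [sub_self]
  obtain ⟨X₀, hX₀⟩ := Pool.Agent.L0h2.P.fewG hb hc hcq M V hε
  refine ⟨X₀, fun X hX => le_trans ?_ (hX₀ X hX)⟩
  refine Nat.cast_le.2 (card_le_card fun S hS => ?_)
  rw [mem_filter] at hS ⊢
  refine ⟨hS.1, ?_⟩
  have h := hS.2
  rw [sub_self, mul_zero, zero_add]
  exact_mod_cast h

end Pool.Agent.L0h86.JR
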