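import Pool.Agent.L0h2.P.Stm
import Pool.Agent.N916.GB.LA

/-!
# Project JR (helper86): the joint law of the 4-ranks, statements

`m` runs over the squarefree numbers of a residue class, `d_1, ..., d_t` are fixed. The events that
the class group of `ℚ(√(-d_l m))` has no element of order four are independent, each has the
proportion `η = ∏_{i ≥ 1} (1 - 2^{-i})`.

The single law is `Pool/Agent/N916/GB` (linear algebra LA0-LA3, LA), `Pool/Agent/N958/GB/BOX`,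
`Pool/Agent/N218/GB`; the joint law of another kind of systems is `Pool/Agent/L0h2/P`, whose
statements `S_KEYG` and `S_CLS` are used. The sets of primes are those of `Pool/Agent/L0h74/EV`.
-/

set_option autoImplicit false
set_option linter.unusedVariables false

open scoped Classical

namespace Pool.Agent.L0h86.JR

open Finset
open Pool.Agent.Y703.CX (sm la jj XX eL zz kk)
open Pool.Agent.Y703.CQ (nr sg)
open Pool.Agent.N973.ND (Pr ty uu SA)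
open Pool.Agent.N916.GB (Po sy Vt Gd Gv ps sx pt eta HB Nd Ev Zs Kr In mm ch Pc)
open Pool.Agent.L0h74.EV (SE Cl n2 NdE)
open Pool.Agent.L0h74.EV.KEY (ph CC)
open Pool.Agent.L0h74.AP (Cp)
open Pool.Agent.L0h2.P (RK S_KEYG)

/-- the limit of a pattern -/
noncomputable def amR {t : ℕ} (β : Fin t → Bool) : ℝ := ∏ l, if β l = true then eta else 1 - eta

/-! ### The linear algebra: the statement -/

section la
variable {t : ℕ} {U : Fin t → Type} [∀ l, Fintype (U l)] {J : Type} [Fintype J] [LinearOrder J]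

/-- the sum of the small entries of a large row -/
def DD (N : ∀ l, U l ⊕ J → U l ⊕ J → ZMod 2) (l : Fin t) (k : J) : ZMod 2 :=
  ∑ v, N l (Sum.inr k) (Sum.inl v)

/-- the hypotheses on the systems: those of `S_LA` for each system, and the large parts are the
same -/
structure HL (w u : ∀ l, U l ⊕ J → ZMod 2) (N : ∀ l, U l ⊕ J → U l ⊕ J → ZMod 2) : Prop where
  w1 : ∀ l k, w l (Sum.inr k) = 1
  u1 : ∀ l, ∑ i, u l i = 1
  rel : ∀ l i j, i ≠ j → w l i * N l i j + w l j * N l j i = u l i * u l j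
  w0 : ∀ l v, w l (Sum.inl v) = 0 →
    u l (Sum.inl v) = 1 ∧ ∀ v', w l (Sum.inl v') = 0 → v = v'
  nd : ∀ l (b : U l → ZMod 2) (s : ZMod 2), ((∃ v, b v ≠ 0) ∨ s ≠ 0) →
    ∃ k, ∑ v, b v * N l (Sum.inl v) (Sum.inr k) + s * u l (Sum.inr k) ≠ 0
  uJ : ∀ l l' k, u l (Sum.inr k) = u l' (Sum.inr k)
  NJ : ∀ l l' k j, k ≠ j → N l (Sum.inr k) (Sum.inr j) = N l' (Sum.inr k) (Sum.inr j)

/-- the sizes -/
structure HZ (u : ∀ l, U l ⊕ J → ZMod 2) (N : ∀ l, U l ⊕ J → U l ⊕ J → ZMod 2) (Q : ℕ) :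
    Prop where
  three : ∀ l, Q ≤ (univ.filter fun k : J => u l (Sum.inr k) = 1).card
  sep : ∀ l l', l ≠ l' →
    Q ≤ (univ.filter fun k : J => u l (Sum.inr k) = 0 ∧ DD N l k + DD N l' k = 1).card

end la

/-- LAJ: the joint law of random completions. -/
def S_LAJ : Prop := ∀ (t : ℕ) (ε : ℝ), 0 < ε → ∃ M V : ℕ, ∀ (U : Fin t → Type)
  [∀ l, Fintype (U l)] (J : Type) [Fintype J] [LinearOrder J] (w u : ∀ l, U l ⊕ J → ZMod 2)
  (N : ∀ l, U l ⊕ J → U l ⊕ J → ZMod 2), HL w u N → HZ u N (M * ∑ l, Fintype.card (U l) + V) →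
  ∀ β : Fin t → Bool,
  |((univ.filter fun σ : ps J → ZMod 2 => ∀ l, (Gv (pt (N l) (sx σ)) ↔ β l = true)).card : ℝ) /
    2 ^ (ps J).card - amR β| ≤ ε

/-- the hypotheses on the sizes, with types: `JR r` are large indices of the type `r`, the values
`x l r` separate the systems -/
structure HT {t n : ℕ} {U : Fin t → Type} [∀ l, Fintype (U l)] {J : Type} [Fintype J]
    [LinearOrder J] (u : ∀ l, U l ⊕ J → ZMod 2) (N : ∀ l, U l ⊕ J → U l ⊕ J → ZMod 2)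
    (x : Fin t → Fin n → ZMod 2) (JR : Fin n → Finset J) (Q : ℕ) : Prop where
  three : ∀ l, Q ≤ (univ.filter fun k : J => u l (Sum.inr k) = 1).card
  card : ∀ r, Q ≤ (JR r).card
  typ : ∀ r, ∀ k ∈ JR r, ∀ l l', u l (Sum.inr k) = 0 ∧ DD N l k + DD N l' k = x l r + x l' r
  sep : ∀ l l', l ≠ l' → ∃ r, x l r ≠ x l' r

/-- LAT: the joint law of random completions, with types (it follows from `S_LAJ`). -/
def S_LAT : Prop := ∀ (t n : ℕ) (ε : ℝ), 0 < ε → ∃ M V : ℕ, ∀ (U : Fin t → Type)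
  [∀ l, Fintype (U l)] (J : Type) [Fintype J] [LinearOrder J] (w u : ∀ l, U l ⊕ J → ZMod 2)
  (N : ∀ l, U l ⊕ J → U l ⊕ J → ZMod 2) (x : Fin t → Fin n → ZMod 2) (JR : Fin n → Finset J),
  HL w u N → HT u N x JR (M * ∑ l, Fintype.card (U l) + V) → ∀ β : Fin t → Bool,
  |((univ.filter fun σ : ps J → ZMod 2 => ∀ l, (Gv (pt (N l) (sx σ)) ↔ β l = true)).card : ℝ) /
    2 ^ (ps J).card - amR β| ≤ ε

/-! ### The linear algebra: the parts of the proof -/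

/-- BON: the remainder of the Bonferroni sums. -/
def S_BON : Prop := ∀ K d : ℕ, |(if d = 0 then (1 : ℝ) else 0) -
  ∑ k ∈ range K, (-1) ^ k * In k d / mm k| ≤ In K d / mm K

/-- TEL: the difference of two products. -/
def S_TEL : Prop := ∀ (t : ℕ) (g C R : Fin t → ℝ), (∀ l, |g l| ≤ 1) → (∀ l, 0 ≤ R l) →
  (∀ l, |g l - C l| ≤ R l) → |∏ l, g l - ∏ l, C l| ≤ ∏ l, (1 + R l) - 1

/-- MOM: the mixed moments tend to one. -/
def S_MOM : Prop := ∀ (t K : ℕ) (δ : ℝ), 0 < δ → ∃ M V : ℕ, ∀ (U : Fin t → Type)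
  [∀ l, Fintype (U l)] (J : Type) [Fintype J] [LinearOrder J] (w u : ∀ l, U l ⊕ J → ZMod 2)
  (N : ∀ l, U l ⊕ J → U l ⊕ J → ZMod 2) (k0 : J), HL w u N →
  HZ u N (M * ∑ l, Fintype.card (U l) + V) → ∀ κ : Fin t → ℕ, (∀ l, κ l ≤ K) →
  |(∑ σ : ps J → ZMod 2, ∏ l, In (κ l) (Module.finrank (ZMod 2) (Kr (pt (N l) (sx σ)) k0))) /
    2 ^ (ps J).card - 1| ≤ δ

section la2
variable {t : ℕ} {U : Fin t → Type} [∀ l, Fintype (U l)] {J : Type} [Fintype J] [LinearOrder J]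

/-- the tuples of vectors of the systems `ℓ a` -/
abbrev ZT (N : ∀ l, U l ⊕ J → U l ⊕ J → ZMod 2) (k0 : J) {K : ℕ} (ℓ : Fin K → Fin t) : Type :=
  ∀ a : Fin K, Zs (N (ℓ a)) k0

variable {N : ∀ l, U l ⊕ J → U l ⊕ J → ZMod 2} {k0 : J} {K : ℕ} {ℓ : Fin K → Fin t}

/-- the large coordinates -/
def yJ (z : ZT N k0 ℓ) (a : Fin K) (k : J) : ZMod 2 := (z a : U (ℓ a) ⊕ J → ZMod 2) (Sum.inr k)

/-- the equations -/
def eJ (z : ZT N k0 ℓ) (a : Fin K) (k : J) : ZMod 2 :=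
  Ev (N (ℓ a)) (z a : U (ℓ a) ⊕ J → ZMod 2) (Sum.inr k)

/-- the vectors of each system are independent -/
def Ind1 (z : ZT N k0 ℓ) : Prop := ∀ (l : Fin t) (c : Fin K → ZMod 2),
  (∀ a, c a ≠ 0 → ℓ a = l) → (∀ k, ∑ a, c a * yJ z a k = 0) → ∀ a, c a = 0

/-- all the vectors are independent -/
def IndJ (z : ZT N k0 ℓ) : Prop := ∀ c : Fin K → ZMod 2,
  (∀ k, ∑ a, c a * yJ z a k = 0) → ∀ a, c a = 0

/-- the proportion of the completions for which all the vectors are solutions -/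
noncomputable def cS (z : ZT N k0 ℓ) : ℝ :=
  ((univ.filter fun σ : ps J → ZMod 2 => Pc (yJ z) (eJ z) σ).card : ℝ) / 2 ^ (ps J).card

/-- the form of two vectors -/
def XF (N : ∀ l, U l ⊕ J → U l ⊕ J → ZMod 2) (l l' : Fin t) (x : U l ⊕ J → ZMod 2)
    (y : U l' ⊕ J → ZMod 2) : ZMod 2 :=
  ∑ k, (x (Sum.inr k) * Ev (N l') y (Sum.inr k) + y (Sum.inr k) * Ev (N l) x (Sum.inr k))

end la2

/-- MOMG: the tuples in general position. -/
def S_MOMG : Prop := ∀ (t K : ℕ) (δ : ℝ), 0 < δ → ∃ M V : ℕ, ∀ (U : Fin t → Type)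
  [∀ l, Fintype (U l)] (J : Type) [Fintype J] [LinearOrder J] (w u : ∀ l, U l ⊕ J → ZMod 2)
  (N : ∀ l, U l ⊕ J → U l ⊕ J → ZMod 2) (k0 : J), HL w u N →
  HZ u N (M * ∑ l, Fintype.card (U l) + V) → ∀ ℓ : Fin K → Fin t,
  |∑ z ∈ univ.filter (fun z : ZT N k0 ℓ => IndJ z), cS z - 1| ≤ δ

/-- MOMD: the dependent tuples. -/
def S_MOMD : Prop := ∀ (t K : ℕ) (δ : ℝ), 0 < δ → ∃ M V : ℕ, ∀ (U : Fin t → Type)
  [∀ l, Fintype (U l)] (J : Type) [Fintype J] [LinearOrder J] (w u : ∀ l, U l ⊕ J → ZMod 2)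
  (N : ∀ l, U l ⊕ J → U l ⊕ J → ZMod 2) (k0 : J), HL w u N →
  HZ u N (M * ∑ l, Fintype.card (U l) + V) → ∀ ℓ : Fin K → Fin t,
  ∑ z ∈ univ.filter (fun z : ZT N k0 ℓ => Ind1 z ∧ ¬ IndJ z), cS z ≤ δ

/-- QS: character sums of biadditive forms. -/
def S_QS : Prop := ∀ (K : ℕ) (Z : Fin K → Type) [∀ a, AddCommGroup (Z a)] [∀ a, Fintype (Z a)]
  (B : ∀ a b, Z a → Z b → ZMod 2), (∀ a b x x' y, B a b (x + x') y = B a b x y + B a b x' y) →
  (∀ a b x y y', B a b x (y + y') = B a b x y + B a b x y') → ∀ R : ℕ,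
  (∀ a b, (univ.filter fun x : Z a => ∀ y, B a b x y = 0).card * R ≤ Fintype.card (Z a)) →
  ∀ τ : ps (Fin K) → ZMod 2, τ ≠ 0 →
  |∑ z : ∀ a, Z a, ch (∑ f, τ f * B f.1.1 f.1.2 (z f.1.1) (z f.1.2))| * R ≤
    ∏ a, (Fintype.card (Z a) : ℝ)

/-- RAD: the radicals of the forms are small. -/
def S_RAD : Prop := ∀ (t V : ℕ) (U : Fin t → Type) [∀ l, Fintype (U l)] (J : Type) [Fintype J]
  [LinearOrder J] (w u : ∀ l, U l ⊕ J → ZMod 2) (N : ∀ l, U l ⊕ J → U l ⊕ J → ZMod 2) (k0 : J),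
  HL w u N → HZ u N (2 * ∑ l, Fintype.card (U l) + (V + 3)) → ∀ l l' : Fin t,
  (univ.filter fun x : Zs (N l) k0 => ∀ y : Zs (N l') k0,
    XF N l l' (x : U l ⊕ J → ZMod 2) (y : U l' ⊕ J → ZMod 2) = 0).card * 2 ^ V ≤
    Fintype.card (Zs (N l) k0)

/-- NGP: few tuples are not in general position. -/
def S_NGP : Prop := ∀ (t K V : ℕ) (U : Fin t → Type) [∀ l, Fintype (U l)] (J : Type) [Fintype J]
  [LinearOrder J] (w u : ∀ l, U l ⊕ J → ZMod 2) (N : ∀ l, U l ⊕ J → U l ⊕ J → ZMod 2) (k0 : J),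
  HL w u N → HZ u N (∑ l, Fintype.card (U l) + (V + 1)) → ∀ ℓ : Fin K → Fin t,
  (univ.filter fun z : ZT N k0 ℓ => ¬ IndJ z).card * 2 ^ V ≤
    2 ^ K * Fintype.card (ZT N k0 ℓ)

/-! ### The systems -/

/-- a system: `t`: two divides the discriminant, which is then `-4`, `8`, `-8` at two for
`(r, s) = (0, 1)`, `(1, 0)`, `(1, 1)`; `W`: the fixed odd primes -/
structure Sr where
  /-- two divides the discriminant -/
  t : Bool
  /-- the coefficient of the symbol of two -/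
  r : ZMod 2
  /-- the coefficient of the symbol of minus one -/
  s : ZMod 2
  /-- the fixed odd primes -/
  W : Finset ℕ

/-- the good sets -/
def GdR (s : Sr) (S : Finset ℕ) : Prop := Gd s.t s.r s.s (S ∪ s.W)

/-- the symbol of the fixed part at `p` -/
noncomputable def dgR (s : Sr) (p : ℕ) : ZMod 2 := ∑ v ∈ Vt s.t s.W, sy s.r s.s p v

/-- the labels are not degenerate -/
def NdR {t : ℕ} (s : Fin t → Sr) (S₀ S₁ : Finset ℕ) : Prop := ∀ l, Nd (S₀ ∪ (s l).W) S₁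

/-- the pattern of the good systems -/
def PatR {t : ℕ} (s : Fin t → Sr) (β : Fin t → Bool) (S : Finset ℕ) : Prop :=
  ∀ l, (GdR (s l) S ↔ β l = true)

/-- the hypotheses on the systems -/
structure HyR {t n : ℕ} (s : Fin t → Sr) (u a : ℕ) (cl : Fin n → ℕ) (x : Fin t → Fin n → ZMod 2) :
    Prop where
  cp : Cp u a
  h56 : 56 ∣ u
  ts : ∀ l, (s l).t = false → (s l).s = 0
  tr : ∀ l, (s l).t = true → (s l).r ≠ 0 ∨ (s l).s ≠ 0
  W : ∀ l, ∀ v ∈ (s l).W, Po v ∧ v ∣ u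
  par : ∀ l S, Cl u a S → (((S ∪ (s l).W).filter fun p => p % 4 = 3).card +
    (if (s l).s = 0 then 0 else 1)) % 2 = 1
  clc : ∀ r, cl r < 7 * u ∧ (cl r).Coprime (7 * u)
  typ : ∀ l r p, Pr p → p % (7 * u) = cl r → uu p = 0 ∧ dgR (s l) p = x l r
  sep : ∀ l l', l ≠ l' → ∃ r, x l r ≠ x l' r

/-! ### Boxes and keys -/

/-- BOXR: the joint law in a box. -/
def S_BOXR : Prop := ∀ (t n : ℕ) (ε : ℝ), 0 < ε → ∃ M V : ℕ, ∀ (s : Fin t → Sr)
  (ι : Type) [Fintype ι] [LinearOrder ι] (τ : ι → ℕ) (C : ι → Finset ℕ) (X : ι → ℕ) (κ : ℝ)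
  (S₀ : Finset ℕ) (x : Fin t → Fin n → ZMod 2) (JR : Fin n → Finset ι) (β : Fin t → Bool),
  (∀ l, (s l).t = false → (s l).s = 0) → (∀ l, (s l).t = true → (s l).r ≠ 0 ∨ (s l).s ≠ 0) →
  0 ≤ κ → (∀ i, (C i).card ≤ X i) → HB C X κ →
  (∀ v ∈ S₀, Po v) → (∀ l, ∀ v ∈ (s l).W, Po v) → (∀ l, Disjoint S₀ (s l).W) →
  (∀ i, ∀ p ∈ C i, Po p ∧ p ∉ S₀ ∧ (∀ l, p ∉ (s l).W) ∧ p % 4 = τ i) →
  (∀ i l, i ≠ l → Disjoint (C i) (C l)) →
  (∀ l, (((S₀ ∪ (s l).W).filter fun p => p % 4 = 3).card +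
    (univ.filter fun i => τ i = 3).card + (if (s l).s = 0 then 0 else 1)) % 2 = 1) →
  M * ∑ l, ((S₀ ∪ (s l).W).card + 1) + V ≤ (univ.filter fun i => τ i = 3).card →
  (∀ r, M * ∑ l, ((S₀ ∪ (s l).W).card + 1) + V ≤ (JR r).card) →
  (∀ r, ∀ i ∈ JR r, τ i ≠ 3 ∧ ∀ p ∈ C i, ∀ l, dgR (s l) p = x l r) →
  (∀ l l', l ≠ l' → ∃ r, x l r ≠ x l' r) →
  |(((Fintype.piFinset C).filter fun p => NdR s S₀ (univ.image p) ∧
        PatR s β (S₀ ∪ univ.image p)).card : ℝ) -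
      amR β * (((Fintype.piFinset C).filter fun p => NdR s S₀ (univ.image p)).card : ℝ)| ≤
    ε * (((Fintype.piFinset C).filter fun p => NdR s S₀ (univ.image p)).card : ℝ) +
    2 ^ ((∑ l, (2 * (S₀ ∪ (s l).W).card + 1)) * Fintype.card ι + (ps ι).card) *
      (κ * ∏ j, (X j : ℝ))

/-- the condition on the key -/
def KQR {n : ℕ} (cl : Fin n → ℕ) (V M : ℕ) (S₀ : Finset ℕ) (J : Finset (ℕ × ℕ)) : Prop :=
  M * S₀.card + V ≤ (J.filter fun e => e.2 % 4 = 3).card ∧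
  ∀ r, M * S₀.card + V ≤ (J.filter fun e => e.2 = cl r).card

/-- KYR: the joint law on the regular sets. -/
def S_KYR : Prop := ∃ C : ℝ, 1 ≤ C ∧ ∀ (t n : ℕ) (s : Fin t → Sr) (u a : ℕ) (cl : Fin n → ℕ)
  (x : Fin t → Fin n → ZMod 2), HyR s u a cl x → ∀ ε : ℝ, 0 < ε → ∃ V M K : ℕ,
  ∀ (β : Fin t → Bool) (X z H k N : ℕ) (κ : ℝ), 1 ≤ X → 1 ≤ H → u ≤ z → 0 ≤ κ →
  C ≤ κ ^ 12 * z → (H : ℝ) * Real.log X < N →
  |(((RK u a X z H k (KQR cl V M)).filter fun S =>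
        NdR s (sm z S) (la z S) ∧ PatR s β S).card : ℝ) -
      amR β * (((RK u a X z H k (KQR cl V M)).filter fun S =>
        NdR s (sm z S) (la z S)).card : ℝ)| ≤
    ε * ((RK u a X z H k (KQR cl V M)).card : ℝ) +
    (9 * (u * N) + 9 : ℝ) ^ k * (3 ^ (K * (k ^ 2 + 1)) * κ) * (X * (1 + Real.log X))

/-! ### The exceptional sets -/

/-- FEWR: few sets have few large primes in a class compared with the number of the small primes. -/
def S_FEWR : Prop := ∀ (q c M V : ℕ), c < q → c.Coprime q → ∀ ε : ℝ, 0 < ε →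
  ∃ X₀ : ℕ, ∀ X : ℕ, X₀ ≤ X →
  (((SA X).filter fun S => ((la (zz X) S).filter fun p => p % q = c).card <
    M * (sm (zz X) S).card + V).card : ℝ) ≤ ε * X

/-- CL7: the class in which only the symbols of seven are not trivial. -/
def S_CL7 : Prop := ∀ u : ℕ, 56 ∣ u → 0 < u → ∃ c : ℕ, c < 7 * u ∧ c.Coprime (7 * u) ∧
  ∀ q, Pr q → q % (7 * u) = c → uu q = 0 ∧ nr q 7 = 1 ∧ nr 7 q = 1 ∧
    (∀ r', Pr r' → r' ∣ u → nr r' q = 0) ∧ n2 q = 0

/-- NDR: nondegenerate labels. -/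
def S_NDR : Prop := ∀ (t : ℕ) (s : Fin t → Sr) (u : ℕ), 56 ∣ u → 0 < u →
  (∀ l, ∀ v ∈ (s l).W, Po v ∧ v ∣ u) → ∀ S₀ S₁ : Finset ℕ, (∀ p ∈ S₀, Pr p) →
  (∀ p ∈ S₁, Pr p) → NdE (S₀ ∪ u.primeFactors.filter Pr) S₁ → (∃ p ∈ S₁, p % 4 = 3) →
  (∃ p ∈ S₁, uu p = 0 ∧ nr p 7 = 1) → NdR s S₀ S₁

/-- DR: the joint law in a class. -/
def S_DR : Prop := ∀ (t n : ℕ) (s : Fin t → Sr) (u a : ℕ) (cl : Fin n → ℕ)
  (x : Fin t → Fin n → ZMod 2), HyR s u a cl x → ∀ β : Fin t → Bool, ∀ ε : ℝ, 0 < ε →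
  ∀ᶠ X : ℕ in Filter.atTop,
    |(((SE u a X).filter (PatR s β)).card : ℝ) - amR β * ((SE u a X).card : ℝ)| ≤ ε * X

/-! ### The numbers -/

/-- the odd part of a squarefree number -/
def oR (g : ℕ) : ℕ := if g % 2 = 1 then g else g / 2

/-- the system of the discriminant of `ℚ(√(-g m))`, `m = a` modulo `u` -/
def sysR (g a : ℕ) : Sr where
  t := decide (g % 2 = 0 ∨ (oR g * a) % 4 = 1)
  r := if g % 2 = 0 then 1 else 0
  s := if (oR g * a) % 4 = 3 then 0 else 1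
  W := (oR g).primeFactors

/-- HYR: the systems satisfy the hypotheses. -/
def S_HYR : Prop := ∀ (u a : ℕ), Cp u a → 56 ∣ u → ∀ (t : ℕ) (g : Fin t → ℕ),
  (∀ l, Squarefree (g l)) → (∀ l p, p.Prime → p ∣ g l → p ∣ u) → Function.Injective g →
  ∃ (n : ℕ) (cl : Fin n → ℕ) (x : Fin t → Fin n → ZMod 2), HyR (fun l => sysR (g l) a) u a cl x

/-- the criterion `(C_m)` (the same as `Pool.Agent.N848.Q.Crit`) -/
def Cr (m : ℤ) : Prop := ∀ a b : ℤ, m = a * b → a % 8 = 1 → (0 < m → 0 < a) →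
  (∀ q : ℕ, q.Prime → q ≠ 2 → (((q : ℤ) ∣ b → IsSquare (a : ZMod q)) ∧
    ((q : ℤ) ∣ a → IsSquare (b : ZMod q)))) → a = 1

/-- the Rédei condition for `ℚ(√(-D))` -/
def NQ (D : ℕ) : Prop := Gd (decide (D % 2 = 0 ∨ D % 4 = 1)) (if D % 2 = 0 then 1 else 0)
  (if oR D % 4 = 3 then 0 else 1) (oR D).primeFactors

/-- TRR: the translation. -/
def S_TRR : Prop := (∀ (u a g m : ℕ), Cp u a → 56 ∣ u → Squarefree g →
  (∀ p, p.Prime → p ∣ g → p ∣ u) → Squarefree m → m % u = a →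
  (GdR (sysR g a) m.primeFactors ↔ NQ (g * m))) ∧
  ∀ D : ℕ, Squarefree D → D % 8 ≠ 7 → (NQ D ↔ Cr (-(D : ℤ)))

/-- the squarefree part -/
def sqf (n : ℕ) : ℕ := ∏ p ∈ n.primeFactors.filter (fun p => n.factorization p % 2 = 1), p

/-- the family: the squarefree numbers of a residue class such that no squarefree part of `d_l m`
is `7` modulo `8` -/
def FamR {t : ℕ} (d : Fin t → ℕ) (q r m : ℕ) : Prop :=
  Squarefree m ∧ m % q = r % q ∧ ∀ l, sqf (d l * m) % 8 ≠ 7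

/-- the number of the `m ≤ X` in `C` with `Q` -/
noncomputable def nR (C Q : ℕ → Prop) (X : ℕ) : ℕ := ((Icc 1 X).filter fun m => C m ∧ Q m).card

/-- LAWR: **the joint law.** -/
def S_LAWR : Prop := ∀ (t : ℕ) (d : Fin t → ℕ), (∀ l, 0 < d l) →
  Function.Injective (fun l => sqf (d l)) → ∀ q r : ℕ, 0 < q → (∃ m₀, FamR d q r m₀) →
  ∀ β : Fin t → Bool, Filter.Tendsto (fun X : ℕ =>
    (nR (FamR d q r) (fun m => ∀ l, (Cr (-(sqf (d l * m) : ℤ)) ↔ β l = true)) X : ℝ) /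
    (nR (FamR d q r) (fun _ => True) X : ℝ)) Filter.atTop (nhds (amR β))

end Pool.Agent.L0h86.JR
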