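import Pool.Agent.L0h86.JR.KYR
import Pool.Agent.L0h86.JR.FEWR
import Pool.Agent.L0h1.SJ.LAJ
import Pool.Agent.L0h92.JR.BOXR
import Pool.Agent.L0h57.JR.LAWR
import Pool.Agent.L0h60.JR.CL7
import Pool.Agent.L0h60.JR.NDR
import Pool.Agent.L0h60.JR.TRR
import Pool.Agent.L0h2.JR.DR
import Pool.Agent.L0h75.JR.HYR
import Pool.Agent.L0h2.P.CLS
import Pool.Agent.L0h2.P.KEYG

/-!
# Project JR: the joint law of the 4-ranks

`m` runs over the squarefree numbers of a residue class and `d_1, ..., d_t` are fixed. The events that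
the class group of `ℚ(√(-d_l m))` has no element of order four (in the form of the criterion
`(C_(-D))`, `D` the squarefree part of `d_l m`) are independent, each has the proportion
`η = ∏_{i ≥ 1} (1 - 2^{-i})`.

Joint work: linear algebra by helper1 (statements, bridge), helper9, helper37, helper48, helper71,
helper81, helper88; primes by helper86 (statements, keys), helper92 (boxes), helper2 (classes),
helper60, helper75, helper57 (numbers).
-/

set_option autoImplicit false

namespace Pool.Agent.L0h86.JR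

/-- the joint law in the boxes -/
theorem a_BOXR : S_BOXR := Pool.Agent.L0h92.JR.t_BOXR Pool.Agent.L0h1.SJ.a_LAT

/-- the joint law on the regular sets -/
theorem a_KYR : S_KYR := t_KYR Pool.Agent.L0h2.P.KEYG.t_KEYG a_BOXR

/-- the joint law in a class -/
theorem a_DR : S_DR :=
  Pool.Agent.L0h2.JR.t_DR a_KYR t_FEWR Pool.Agent.L0h60.JR.t_CL7 Pool.Agent.L0h60.JR.t_NDR

/-- the systems of the numbers -/
theorem a_HYR : S_HYR :=
  Pool.Agent.L0h75.JR.t_HYR Pool.Agent.L0h2.P.t_CLS Pool.Agent.L0h60.JR.t_CL7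

/-- **The joint law of the 4-ranks.** -/
theorem law : S_LAWR := Pool.Agent.L0h57.JR.t_LAWR a_DR a_HYR Pool.Agent.L0h60.JR.t_TRR

end Pool.Agent.L0h86.JR
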